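import Mathlib
import Pool.Agent.Helper69.FdMain

/-!
# Separable Banach spaces of all flat dimensions: the building blocks
-/

set_option autoImplicit false

open scoped ENNReal Topology
open TopologicalSpace

namespace Pool.Agent.Y896.FD

open Pool.Agent.Helper69.Fd

/-- countable `ℓ¹`-sums of separable spaces are separable -/
theorem separable_lp {𝕜 : Type} [RCLike 𝕜] {ι : Type} [Countable ι] (E : ι → Type)
    [∀ i, NormedAddCommGroup (E i)] [∀ i, NormedSpace 𝕜 (E i)] [∀ i, SeparableSpace (E i)] :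
    SeparableSpace (lp E 1) := by
  classical
  set S : Set (lp E 1) := ⋃ i, Set.range (lp.singleContinuousLinearMap 𝕜 E 1 i) with hS
  have h1 : IsSeparable S :=
    IsSeparable.iUnion fun i => isSeparable_range (lp.singleContinuousLinearMap 𝕜 E 1 i).continuous
  have h2 : IsSeparable (closure (Submodule.span 𝕜 S : Set (lp E 1))) := (h1.span (R := 𝕜)).closure
  have h3 : closure (Submodule.span 𝕜 S : Set (lp E 1)) = Set.univ := by
    rw [Set.eq_univ_iff_forall]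
    intro f
    have h4 := lp.hasSum_single (p := 1) ENNReal.one_ne_top f
    refine mem_closure_of_tendsto h4 (Filter.Eventually.of_forall fun F => ?_)
    refine Submodule.sum_mem _ fun i _ => Submodule.subset_span ?_
    rw [hS, Set.mem_iUnion]
    exact ⟨i, f i, rfl⟩
  rw [h3] at h2
  exact isSeparable_univ_iff.1 h2

theorem separable_l1 (𝕜 : Type) [RCLike 𝕜] (S : Type) [Countable S] : SeparableSpace (l1 𝕜 S) :=
  separable_lp (𝕜 := 𝕜) (fun _ : S => 𝕜)

theorem separable_of_surj {P X : Type} [TopologicalSpace P] [TopologicalSpace X] [SeparableSpace P]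
    (f : P → X) (hf : Continuous f) (hs : Function.Surjective f) : SeparableSpace X :=
  hs.denseRange.separableSpace hf

open SumAux in
theorem exists_sum' (𝕜 : Type) [RCLike 𝕜] (m : ℕ) (B C : ℝ) (hB : 0 ≤ B) (hC : 0 ≤ C)
    (h : ∀ ε : ℝ, 0 < ε → ∃ K : FC 𝕜, K.Good (m + 1) B C ∧ K.Cert m ε) :
    ∃ (X : Type) (_ : NormedAddCommGroup X) (_ : NormedSpace 𝕜 X) (_ : CompleteSpace X)
      (R : Resolution 𝕜 X), SeparableSpace X ∧
      (∀ i, ∃ S : Type, Nonempty (R.P i ≃ₗᵢ[𝕜] l1 𝕜 S)) ∧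
      (∀ i, m + 1 < i → Subsingleton (R.P i)) ∧
      ¬ ∃ r : R.P m →L[𝕜] R.P (m + 1), ∀ x, r (R.d m x) = x := by
  choose K hK hcert using fun L : ℕ => h (1 / ((L : ℝ) + 1)) (by positivity)
  let d : ∀ j : ℕ, l1 𝕜 (Σ L, (K L).S (j + 1)) →L[𝕜] l1 𝕜 (Σ L, (K L).S j) := fun j =>
    dop (fun L => (K L).D j) B (fun L y => (hK L).bdd j y)
  let N : Submodule 𝕜 (l1 𝕜 (Σ L, (K L).S 0)) := LinearMap.range (d 0).toLinearMap
  have hcl : IsClosed (N : Set (l1 𝕜 (Σ L, (K L).S 0))) :=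
    range_closed _ B C _ fun L y => (hK L).op y
  let ε : l1 𝕜 (Σ L, (K L).S 0) →L[𝕜] (l1 𝕜 (Σ L, (K L).S 0) ⧸ N) :=
    LinearMap.mkContinuous N.mkQ 1 (fun x => by
      rw [one_mul]
      exact Submodule.Quotient.norm_mk_le N x)
  let R : Resolution 𝕜 (l1 𝕜 (Σ L, (K L).S 0) ⧸ N) :=
    { P := fun j => l1 𝕜 (Σ L, (K L).S j)
      d := d
      ε := ε
      surj := Submodule.mkQ_surjective N
      exact_zero := fun x => by
        show N.mkQ x = 0 ↔ _
        rw [Submodule.mkQ_apply, Submodule.Quotient.mk_eq_zero]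
        exact Iff.rfl
      exact := fun j x => dop_exact _ _ B B C _ _ (fun L y => (hK L).sq j y)
        (fun L z hz => (hK L).ex j z hz) x }
  have hcnt : Countable (Σ L, (K L).S 0) := by
    haveI : ∀ L, Countable ((K L).S 0) := fun L => Finite.to_countable
    infer_instance
  haveI : SeparableSpace (l1 𝕜 (Σ L, (K L).S 0)) := separable_l1 𝕜 _
  refine ⟨l1 𝕜 (Σ L, (K L).S 0) ⧸ N, inferInstance, inferInstance, inferInstance, R, ?_, ?_, ?_, ?_⟩
  · exact separable_of_surj ε ε.continuous (Submodule.mkQ_surjective N)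
  · intro i
    exact ⟨_, ⟨LinearIsometryEquiv.refl 𝕜 _⟩⟩
  · intro i hi
    have hemp : ∀ L, IsEmpty ((K L).S i) := fun L => (hK L).empty i hi
    show Subsingleton (l1 𝕜 (Σ L, (K L).S i))
    constructor
    intro x y
    ext ⟨L, s⟩
    exact (hemp L).elim s
  · refine no_left_inverse (fun L => (K L).D m) B (fun L y => (hK L).bdd m y)
      (fun L => (hK L).ne) ?_
    intro L
    obtain ⟨θ, c, h1, -, h3, h4⟩ := hcert L
    exact ⟨θ, c, h1, h3, h4⟩

/-- the separable spaces `X_n` -/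
theorem exists_Xn' (𝕜 : Type) [RCLike 𝕜] (m : ℕ) :
    ∃ (X : Type) (_ : NormedAddCommGroup X) (_ : NormedSpace 𝕜 X) (_ : CompleteSpace X)
      (R : Resolution 𝕜 X), SeparableSpace X ∧
      (∀ i, ∃ S : Type, Nonempty (R.P i ≃ₗᵢ[𝕜] l1 𝕜 S)) ∧
      (∀ i, m + 1 < i → Subsingleton (R.P i)) ∧ ¬ Fm (QL (𝕜 := 𝕜)) m ⟨X⟩ := by
  obtain ⟨B, C, hB, hC, h⟩ := exists_block (goodMat 𝕜) m
  obtain ⟨X, i1, i2, i3, R, h0, h1, h2, h3⟩ := exists_sum' 𝕜 m B C hB hC h
  refine ⟨X, i1, i2, i3, R, h0, h1, h2, ?_⟩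
  refine not_fm_of_no_retract m ⟨X⟩ R (fun i => ?_) (fun y => ?_) h3
  · obtain ⟨S, ⟨e⟩⟩ := h1 i
    exact ⟨S, ⟨e.toContinuousLinearEquiv⟩⟩
  · have := h2 (m + 2) (by omega)
    rw [Subsingleton.elim y 0, map_zero]

end Pool.Agent.Y896.FD
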