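import Mathlib
import Pool.Agent.Helper69.HdMain
import Pool.Agent.Y896.FD.S1

/-!
# Separable Banach spaces with `pd X = fd X = id X* = apd X* = n`
-/

set_option autoImplicit false

open scoped ENNReal Topology
open TopologicalSpace

namespace Pool.Agent.Y896.FDS

open Pool.Agent.Helper69.Fd

theorem exists_X (𝕜 : Type) [RCLike 𝕜] (m : ℕ) :
    ∃ (X : Type) (_ : NormedAddCommGroup X) (_ : NormedSpace 𝕜 X) (_ : CompleteSpace X)
      (R : Resolution 𝕜 X), SeparableSpace X ∧ (∀ i, ∃ S : Type, Nonempty (R.P i ≃ₗᵢ[𝕜] l1 𝕜 S)) ∧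
      (∀ i, m + 1 < i → Subsingleton (R.P i)) ∧ ¬ Fm (QL (𝕜 := 𝕜)) m ⟨X⟩ ∧
      ¬ Gm MB QM m (⟨X →L[𝕜] 𝕜⟩ : Ban 𝕜) := by
  obtain ⟨B, C, hB, hC, h⟩ := exists_block (goodMat 𝕜) m
  obtain ⟨X, i1, i2, i3, R, h0, h1, h2, h3⟩ := Pool.Agent.Y896.FD.exists_sum' 𝕜 m B C hB hC h
  have htop : ∀ y : R.P (m + 2), R.d (m + 1) y = 0 := by
    intro y
    have := h2 (m + 2) (by omega)
    rw [Subsingleton.elim y 0, map_zero]
  have hP : ∀ i, ∃ S : Type, Nonempty (R.P i ≃L[𝕜] l1 𝕜 S) := by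
    intro i
    obtain ⟨S, ⟨e⟩⟩ := h1 i
    exact ⟨S, ⟨e.toContinuousLinearEquiv⟩⟩
  exact ⟨X, i1, i2, i3, R, h0, h1, h2, not_fm_of_no_retract m ⟨X⟩ R hP htop h3,
    not_gm_dual m X R hP htop h3⟩

theorem fd_punit (𝕜 : Type) [RCLike 𝕜] : fd 𝕜 PUnit = (0 : ℕ) := by
  refine fd_eq_of ⟨zeroRes 𝕜, fun i => ?_, fun i _ => (inferInstance : Subsingleton PUnit)⟩
    (fun m hm => absurd hm (by omega))
  have : Subsingleton ((zeroRes 𝕜).P i) := (inferInstance : Subsingleton PUnit)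
  exact isL1Space_of_subsingleton

/-- all four dimensions at once -/
theorem simul (𝕜 : Type) [RCLike 𝕜] (n : ℕ∞) :
    ∃ (X : Type) (_ : NormedAddCommGroup X) (_ : NormedSpace 𝕜 X) (_ : CompleteSpace X),
      SeparableSpace X ∧ pd 𝕜 X = n ∧ fd 𝕜 X = n ∧ injDim 𝕜 (X →L[𝕜] 𝕜) = n ∧
      apd 𝕜 (X →L[𝕜] 𝕜) = n := by
  induction n using ENat.recTopCoe with
  | top =>
    choose X i1 i2 i3 R hs h1 h2 h3 h4 using exists_X 𝕜
    have key : ∀ m, ¬ HasFlatRes 𝕜 (lp X 1) m := by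
      intro m hm
      refine h3 m (Fm.retract resolving_QL m ⟨lp X 1⟩ ⟨X m⟩
        (lp.singleContinuousLinearMap 𝕜 X 1 m) (lp.evalCLM 𝕜 X 1 m) (fun y => ?_) hm.fm)
      show lp.single 1 m y m = y
      exact lp.single_apply_self 1 m y
    have key2 : ∀ m, ¬ HasMRes 𝕜 (lp X 1 →L[𝕜] 𝕜) m := by
      intro m hm
      refine h4 m (Gm.retract coFrame_MB m ⟨lp X 1 →L[𝕜] 𝕜⟩ ⟨X m →L[𝕜] 𝕜⟩
        (pre (lp.evalCLM 𝕜 X 1 m)) (pre (lp.singleContinuousLinearMap 𝕜 X 1 m)) (fun φ => ?_)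
        (hm.gm le_rfl))
      ext y
      show φ (lp.single 1 m y m) = φ y
      rw [lp.single_apply_self]
    refine ⟨lp X 1, inferInstance, inferInstance, inferInstance,
      Pool.Agent.Y896.FD.separable_lp (𝕜 := 𝕜) X, ?_, fd_eq_top key, ?_, ?_⟩
    · exact pd_eq_top fun m hm => key m hm.flat
    · exact iInf_eq_top' (p := HasInjRes 𝕜 (lp X 1 →L[𝕜] 𝕜)) fun m hm => key2 m hm.mRes
    · exact iInf_eq_top' (p := HasApRes 𝕜 (lp X 1 →L[𝕜] 𝕜)) fun m hm => key2 m hm.mRes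
  | coe n =>
    cases n with
    | zero =>
      have hs : Subsingleton (PUnit →L[𝕜] 𝕜) := subsingleton_dual inferInstance
      refine ⟨PUnit, inferInstance, inferInstance, inferInstance, inferInstance, pd_punit,
        fd_punit 𝕜, ?_, ?_⟩
      · refine iInf_eq_coe' (p := HasInjRes 𝕜 (PUnit →L[𝕜] 𝕜)) ⟨(zeroRes 𝕜).dual, fun i => ?_,
          fun i _ => hs⟩ (fun m hm => absurd hm (by omega))
        intro E _ _ _ F hF T
        exact ⟨0, fun _ => Subsingleton.elim (α := PUnit →L[𝕜] 𝕜) _ _⟩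
      · refine iInf_eq_coe' (p := HasApRes 𝕜 (PUnit →L[𝕜] 𝕜)) ⟨(zeroRes 𝕜).dual, fun i => ?_,
          fun i _ => hs⟩ (fun m hm => absurd hm (by omega))
        exact IsLinfSpace.of_equiv
          (subsingletonEquiv 𝕜 PUnit (PUnit →L[𝕜] 𝕜)).toContinuousLinearEquiv isLinfSpace_punit
    | succ n =>
      obtain ⟨X, i1, i2, i3, R, hs, h1, h2, h3, h4⟩ := exists_X 𝕜 n
      refine ⟨X, i1, i2, i3, hs, ?_, ?_, ?_, ?_⟩
      · exact iInf_eq_coe' (p := HasProjRes 𝕜 X) ⟨R, h1, h2⟩ fun m hm hm' =>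
          h3 (hm'.flat.mono (Nat.lt_succ_iff.1 hm)).fm
      · exact iInf_eq_coe' (p := HasFlatRes 𝕜 X) (HasProjRes.flat ⟨R, h1, h2⟩) fun m hm hm' =>
          h3 (hm'.mono (Nat.lt_succ_iff.1 hm)).fm
      · refine iInf_eq_coe' (p := HasInjRes 𝕜 (X →L[𝕜] 𝕜)) ⟨R.dual, fun i => ?_, fun i hi => ?_⟩
          fun m hm hm' => h4 (hm'.mRes.gm (Nat.lt_succ_iff.1 hm))
        · obtain ⟨S, ⟨e⟩⟩ := h1 i
          exact isInjectiveSpace_of_relInj ⟨R.P i →L[𝕜] 𝕜⟩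
            (RelInj.iso (I := ⟨l1 𝕜 S →L[𝕜] 𝕜⟩) (J := ⟨R.P i →L[𝕜] 𝕜⟩) (relInj_dual_l1 S)
              (dualEquiv e.toContinuousLinearEquiv))
        · exact subsingleton_dual (h2 i hi)
      · refine iInf_eq_coe' (p := HasApRes 𝕜 (X →L[𝕜] 𝕜)) ⟨R.dual, fun i => ?_, fun i hi => ?_⟩
          fun m hm hm' => h4 (hm'.mRes.gm (Nat.lt_succ_iff.1 hm))
        · obtain ⟨S, ⟨e⟩⟩ := h1 i
          exact IsLinfSpace.of_equiv (dualEquiv e.toContinuousLinearEquiv)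
            (isLinfSpace_dual_l1 𝕜 S)
        · exact subsingleton_dual (h2 i hi)

end Pool.Agent.Y896.FDS
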