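import Mathlib
import Pool.Agent.Helper69.FdMain

/-!
# Separable Banach spaces of all flat dimensions: `L¹` of the Cantor cube
-/

set_option autoImplicit false

open scoped ENNReal Topology
open TopologicalSpace

namespace Pool.Agent.Y896.FD

open Pool.Agent.Helper69.Fd

/-- `L¹` of the Cantor cube is separable -/
theorem exists_Wsep (𝕜 : Type) [RCLike 𝕜] :
    ∃ (W : Type) (_ : NormedAddCommGroup W) (_ : NormedSpace 𝕜 W) (_ : CompleteSpace W),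
      SeparableSpace W ∧ IsL1Space 𝕜 W ∧ ∃ D : Set W, D.Nonempty ∧ (∀ f ∈ D, ‖f‖ ≤ 1) ∧
        ∀ f ∈ D, ∀ (Φ : Finset (W →L[𝕜] 𝕜)) (ε : ℝ), 0 < ε →
          ∃ g, 1 ≤ ‖g‖ ∧ f + g ∈ D ∧ ∀ φ ∈ Φ, ‖φ g‖ ≤ ε := by
  refine ⟨MeasureTheory.Lp 𝕜 1 cube, inferInstance, inferInstance, inferInstance, ?_,
    isL1Space_Lp cube, Set.range (bush 𝕜), ⟨_, ⟨∅, rfl⟩⟩, ?_, ?_⟩
  · haveI : Fact ((1 : ℝ≥0∞) ≠ ⊤) := ⟨ENNReal.one_ne_top⟩
    haveI : SecondCountableTopology (MeasureTheory.Lp 𝕜 1 cube) := inferInstance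
    exact inferInstance
  · rintro _ ⟨A, rfl⟩
    exact (norm_bush A).le
  · rintro _ ⟨A, rfl⟩ Φ ε hε
    have hnot : ∀ n : ℕ, A.sup id + 1 + n ∉ A := by
      intro n hn
      have : A.sup id + 1 + n ≤ A.sup id := Finset.le_sup (f := id) hn
      omega
    have hev : ∀ᶠ n in Filter.atTop, ∀ φ ∈ Φ,
        ‖φ (bush 𝕜 (insert (A.sup id + 1 + n) A) - bush 𝕜 A)‖ < ε := by
      rw [Filter.eventually_all_finset]
      intro φ _
      exact (weak_null A φ).eventually (gt_mem_nhds hε)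
    obtain ⟨n, hn⟩ := hev.exists
    refine ⟨bush 𝕜 (insert (A.sup id + 1 + n) A) - bush 𝕜 A, ?_, ?_, fun φ hφ => (hn φ hφ).le⟩
    · rw [norm_sub_bush A (hnot n)]
    · rw [add_sub_cancel]
      exact ⟨_, rfl⟩

/-- no finite projective resolution for products with `W` -/
theorem exists_W'' (𝕜 : Type) [RCLike 𝕜] :
    ∃ (W : Type) (_ : NormedAddCommGroup W) (_ : NormedSpace 𝕜 W) (_ : CompleteSpace W),
      SeparableSpace W ∧ IsL1Space 𝕜 W ∧ ∀ m, ¬ Fm (Proj (𝕜 := 𝕜)) m ⟨W⟩ := by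
  obtain ⟨W, i1, i2, i3, hs, hW, D, hD1, hD2, hD3⟩ := exists_Wsep 𝕜
  refine ⟨W, i1, i2, i3, hs, hW, fun m hm => ?_⟩
  have h1 : Proj (𝕜 := 𝕜) ⟨W⟩ := proj_of_fm m ⟨W⟩ (propL_of_isL1Space 𝕜 W hW) hm
  exact no_embedding D hD1 hD2 hD3 h1.embeds

end Pool.Agent.Y896.FD
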