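import Mathlib
import Pool.Agent.Helper69.FdMain
import Pool.Agent.Y896.FD.S1
import Pool.Agent.Y896.FD.S2

/-!
# Separable Banach spaces of infinite projective dimension and any flat dimension
-/

set_option autoImplicit false

open scoped ENNReal Topology
open TopologicalSpace

namespace Pool.Agent.Y896.FD

open Pool.Agent.Helper69.Fd

variable {𝕜 : Type} [RCLike 𝕜]

section prod

variable {Y : Type} [NormedAddCommGroup Y] [NormedSpace 𝕜 Y]
  {Z : Type} [NormedAddCommGroup Z] [NormedSpace 𝕜 Z]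

/-- the product of two resolutions -/
def prodR (R : Resolution 𝕜 Y) (R' : Resolution 𝕜 Z) : Resolution 𝕜 (Y × Z) where
  P i := R.P i × R'.P i
  d i := (R.d i).prodMap (R'.d i)
  ε := R.ε.prodMap R'.ε
  surj := fun y => by
    obtain ⟨x, hx⟩ := R.surj y.1
    obtain ⟨x', hx'⟩ := R'.surj y.2
    exact ⟨(x, x'), Prod.ext hx hx'⟩
  exact_zero := fun x => by
    obtain ⟨x, w⟩ := x
    constructor
    · intro h
      obtain ⟨y, hy⟩ := (R.exact_zero x).1 (congrArg Prod.fst h)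
      obtain ⟨y', hy'⟩ := (R'.exact_zero w).1 (congrArg Prod.snd h)
      exact ⟨(y, y'), Prod.ext hy hy'⟩
    · rintro ⟨⟨y, y'⟩, hy⟩
      exact Prod.ext ((R.exact_zero x).2 ⟨y, congrArg Prod.fst hy⟩)
        ((R'.exact_zero w).2 ⟨y', congrArg Prod.snd hy⟩)
  exact := fun i x => by
    obtain ⟨x, w⟩ := x
    constructor
    · intro h
      obtain ⟨y, hy⟩ := (R.exact i x).1 (congrArg Prod.fst h)
      obtain ⟨y', hy'⟩ := (R'.exact i w).1 (congrArg Prod.snd h)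
      exact ⟨(y, y'), Prod.ext hy hy'⟩
    · rintro ⟨⟨y, y'⟩, hy⟩
      exact Prod.ext ((R.exact i x).2 ⟨y, congrArg Prod.fst hy⟩)
        ((R'.exact i w).2 ⟨y', congrArg Prod.snd hy⟩)

theorem flat_prod {n : ℕ} (h : HasFlatRes 𝕜 Y n) (h' : HasFlatRes 𝕜 Z n) :
    HasFlatRes 𝕜 (Y × Z) n := by
  obtain ⟨R, h1, h2⟩ := h
  obtain ⟨R', h1', h2'⟩ := h'
  refine ⟨prodR R R', fun i => isL1Space_prod (h1 i) (h1' i), fun i hi => ?_⟩
  haveI := h2 i hi
  haveI := h2' i hi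
  exact (inferInstance : Subsingleton (R.P i × R'.P i))

theorem flat_of_fd {n : ℕ} (h : fd 𝕜 Y ≤ n) : HasFlatRes 𝕜 Y n := by
  by_contra hno
  have h1 : ((n + 1 : ℕ) : ℕ∞) ≤ fd 𝕜 Y := by
    unfold fd
    refine le_iInf₂ fun m hm => ?_
    by_contra hlt
    push Not at hlt
    have : m < n + 1 := by exact_mod_cast hlt
    exact hno (hm.mono (by omega))
  have h2 : ((n + 1 : ℕ) : ℕ∞) ≤ (n : ℕ∞) := h1.trans h
  have h3 : n + 1 ≤ n := by exact_mod_cast h2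
  omega

end prod

/-- the properties of the example -/
structure Good (n : ℕ∞) (Z : Type) [NormedAddCommGroup Z] [NormedSpace 𝕜 Z] [CompleteSpace Z] :
    Prop where
  proj : ∀ m, ¬ Fm (Proj (𝕜 := 𝕜)) m ⟨Z⟩
  low : ∀ m : ℕ, (m : ℕ∞) < n → ∃ k, m ≤ k ∧ ¬ Fm (QL (𝕜 := 𝕜)) k ⟨Z⟩
  up : ∀ k : ℕ, n = k → HasFlatRes 𝕜 Z k

variable {n : ℕ∞} {Z : Type} [NormedAddCommGroup Z] [NormedSpace 𝕜 Z] [CompleteSpace Z]

theorem Good.pd (h : Good (𝕜 := 𝕜) n Z) : pd 𝕜 Z = ⊤ :=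
  pd_eq_top fun m hm => h.proj m hm.fm

theorem Good.fd (h : Good (𝕜 := 𝕜) n Z) : fd 𝕜 Z = n := by
  have hlow : ∀ m : ℕ, (m : ℕ∞) < n → ¬ HasFlatRes 𝕜 Z m := by
    intro m hm hf
    obtain ⟨k, hk, hk'⟩ := h.low m hm
    exact hk' (hf.mono hk).fm
  induction n using ENat.recTopCoe with
  | top => exact fd_eq_top fun m => hlow m (ENat.coe_lt_top m)
  | coe n => exact fd_eq_of (h.up n rfl) fun m hm => hlow m (by exact_mod_cast hm)

theorem Good.prod (h : Good (𝕜 := 𝕜) n Z) (Y : Type) [NormedAddCommGroup Y] [NormedSpace 𝕜 Y]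
    [CompleteSpace Y] (hY : Pool.Agent.Helper69.Fd.fd 𝕜 Y ≤ n) : Good (𝕜 := 𝕜) n (Y × Z) where
  proj m hm := h.proj m (Fm.fst resolving_proj m ⟨Z⟩ ⟨Y⟩
    (Fm.iso resolving_proj m ⟨Y × Z⟩ ⟨Z × Y⟩ (ContinuousLinearEquiv.prodComm 𝕜 Y Z) hm))
  low m hm := by
    obtain ⟨k, hk, hk'⟩ := h.low m hm
    refine ⟨k, hk, fun hf => hk' (Fm.fst resolving_QL k ⟨Z⟩ ⟨Y⟩
      (Fm.iso resolving_QL k ⟨Y × Z⟩ ⟨Z × Y⟩ (ContinuousLinearEquiv.prodComm 𝕜 Y Z) hf))⟩
  up k hk := by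
    subst hk
    exact flat_prod (flat_of_fd hY) (h.up k rfl)

/-- the examples -/
theorem exists_good (𝕜 : Type) [RCLike 𝕜] (n : ℕ∞) :
    ∃ (Z : Type) (_ : NormedAddCommGroup Z) (_ : NormedSpace 𝕜 Z) (_ : CompleteSpace Z),
      SeparableSpace Z ∧ Good (𝕜 := 𝕜) n Z := by
  induction n using ENat.recTopCoe with
  | top =>
    choose X i1 i2 i3 R hs h1 h2 h3 using exists_Xn' 𝕜
    have key : ∀ m, ¬ Fm (QL (𝕜 := 𝕜)) m ⟨lp X 1⟩ := by
      intro m hm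
      refine h3 m (Fm.retract resolving_QL m ⟨lp X 1⟩ ⟨X m⟩
        (lp.singleContinuousLinearMap 𝕜 X 1 m) (lp.evalCLM 𝕜 X 1 m) (fun y => ?_) hm)
      show lp.single 1 m y m = y
      exact lp.single_apply_self 1 m y
    obtain ⟨W, j1, j2, j3, hWs, hW, hW'⟩ := exists_W'' 𝕜
    refine ⟨lp X 1 × W, inferInstance, inferInstance, inferInstance, ?_, ?_⟩
    · haveI : SeparableSpace (lp X 1) := separable_lp (𝕜 := 𝕜) X
      infer_instance
    · refine ⟨fun m hm => ?_, fun m _ => ⟨m, le_rfl, fun hm => ?_⟩, fun k hk => ?_⟩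
      · exact hW' m (Fm.fst resolving_proj m ⟨W⟩ ⟨lp X 1⟩
          (Fm.iso resolving_proj m ⟨lp X 1 × W⟩ ⟨W × lp X 1⟩
            (ContinuousLinearEquiv.prodComm 𝕜 (lp X 1) W) hm))
      · exact key m (Fm.fst resolving_QL m ⟨lp X 1⟩ ⟨W⟩ hm)
      · exact absurd hk (ENat.coe_ne_top k).symm
  | coe n =>
    obtain ⟨W, j1, j2, j3, hWs, hW, hW'⟩ := exists_W'' 𝕜
    cases n with
    | zero =>
      refine ⟨PUnit × W, inferInstance, inferInstance, inferInstance, inferInstance, ?_⟩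
      refine ⟨fun m hm => ?_, fun m hm => ?_, fun k hk => ?_⟩
      · exact hW' m (Fm.fst resolving_proj m ⟨W⟩ ⟨PUnit⟩
          (Fm.iso resolving_proj m ⟨PUnit × W⟩ ⟨W × PUnit⟩
            (ContinuousLinearEquiv.prodComm 𝕜 PUnit W) hm))
      · exact absurd hm (by simp)
      · have hs : ∀ i, Subsingleton ((zeroRes 𝕜).P i) :=
          fun i => (inferInstance : Subsingleton PUnit)
        refine hasFlatRes_prod (zeroRes 𝕜) (fun i => ?_) (fun i _ => hs i) hW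
        have := hs i
        exact isL1Space_of_subsingleton
    | succ n =>
      obtain ⟨Y, i1, i2, i3, R, hs, h1, h2, h3⟩ := exists_Xn' 𝕜 n
      refine ⟨Y × W, inferInstance, inferInstance, inferInstance, inferInstance, ?_⟩
      refine ⟨fun m hm => ?_, fun m hm => ?_, fun k hk => ?_⟩
      · exact hW' m (Fm.fst resolving_proj m ⟨W⟩ ⟨Y⟩
          (Fm.iso resolving_proj m ⟨Y × W⟩ ⟨W × Y⟩ (ContinuousLinearEquiv.prodComm 𝕜 Y W) hm))
      · have hm' : m < n + 1 := by exact_mod_cast hm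
        exact ⟨n, by omega, fun hf => h3 (Fm.fst resolving_QL n ⟨Y⟩ ⟨W⟩ hf)⟩
      · have hk' : n + 1 = k := by exact_mod_cast hk
        subst hk'
        refine hasFlatRes_prod R (fun i => ?_) h2 hW
        obtain ⟨S, ⟨e⟩⟩ := h1 i
        exact IsL1Space.of_equiv e.symm.toContinuousLinearEquiv (isL1Space_l1 𝕜 S)

end Pool.Agent.Y896.FD
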